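import Pool.Agent.helper93.CR.SpecB
import Pool.Agent.helper84.HF.LFE

/-!
# MP_07c750 (quantum unique ergodicity, weight 10), project CR: row LFW (copy of helper84/HF/LFE.lean with two sets)
-/

set_option autoImplicit false

open scoped MatrixGroups ContDiff Topology UpperHalfPlane ComplexConjugate
open UpperHalfPlane MeasureTheory Filter Set

namespace Pool.Agent.CR

open Pool.Agent.RS
open Pool.Agent.MS (bq CW)
open Pool.Agent.EN (XG MG mkX mkM fl pr)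
open Pool.Agent.HF (px fb bad YL cellU esum)

theorem LFW_x0 (c1 c2 η γ : ℝ) (w : ℕ) (hη : 0 < η) (hγ : 0 < γ) : ∃ x0 : ℝ, ∀ X : ℝ, x0 ≤ X → c1 ≤ η ^ w * X ^ (4 : ℝ) ∧ c2 ≤ η ^ 4 * X ^ (γ / 2) := by
  have h1 : Tendsto (fun X : ℝ => η ^ w * X ^ (4 : ℝ)) atTop atTop :=
    (tendsto_rpow_atTop (by norm_num)).const_mul_atTop (by positivity)
  have h2 : Tendsto (fun X : ℝ => η ^ 4 * X ^ (γ / 2)) atTop atTop :=
    (tendsto_rpow_atTop (by positivity)).const_mul_atTop (by positivity)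
  obtain ⟨x1, H1⟩ := Filter.eventually_atTop.mp (h1.eventually_ge_atTop c1)
  obtain ⟨x2, H2⟩ := Filter.eventually_atTop.mp (h2.eventually_ge_atTop c2)
  exact ⟨max x1 x2, fun X hX => ⟨H1 X ((le_max_left _ _).trans hX), H2 X ((le_max_right _ _).trans hX)⟩⟩

/-- the numbers: `X = 2 ^ N` -/
theorem LFW_num (X K Y A A' C C0 W η γ ρ κ : ℝ) (w : ℕ) (hX : 1 ≤ X) (hK : 0 ≤ K) (hY : 0 ≤ Y) (hC : 0 < C) (hC0 : 0 ≤ C0) (hW : 0 ≤ W)
    (hη : 0 < η) (hρw : 16 ≤ ρ * w) (hκγ : κ ≤ γ / 12) (hκρ : κ ≤ ρ / 4) (hKA : K ≤ C * A') (hYA : Y ≤ C0 * A)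
    (hAX : A ≤ X ^ (ρ + κ)) (hAX' : A' ≤ X ^ (1 - ρ + κ))
    (h1 : C ^ w ≤ η ^ w * X ^ (4 : ℝ)) (h2 : 4 * W * C ^ 3 * C0 ^ 3 ≤ η ^ 4 * X ^ (γ / 2)) :
    K ^ w * X ^ 8 ≤ (η * X) ^ w ∧ K ^ 3 * (W * (4 * X)) * (X ^ (-γ) * Y ^ 3) ≤ (η * X) ^ 4 := by
  have hX0 : 0 < X := by linarith
  have hp : ∀ (s : ℝ) (k : ℕ), (X ^ s) ^ k = X ^ (s * k) := fun s k => by
    rw [Real.rpow_mul_natCast hX0.le]
  have hXn : ∀ k : ℕ, X ^ k = X ^ (k : ℝ) := fun k => (Real.rpow_natCast X k).symm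
  have hw0 : (0 : ℝ) ≤ w := Nat.cast_nonneg _
  have hKC : K ≤ C * X ^ (1 - ρ + κ) := hKA.trans (mul_le_mul_of_nonneg_left hAX' hC.le)
  have hYC : Y ≤ C0 * X ^ (ρ + κ) := hYA.trans (mul_le_mul_of_nonneg_left hAX hC0)
  constructor
  · have e1 : K ^ w ≤ (C * X ^ (1 - ρ + κ)) ^ w := pow_le_pow_left₀ hK hKC w
    rw [mul_pow, hp] at e1
    have e2 : X ^ ((1 - ρ + κ) * w) * X ^ 8 ≤ X ^ ((w : ℝ) - 4) := by
      rw [hXn 8, ← Real.rpow_add hX0]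
      apply Real.rpow_le_rpow_of_exponent_le hX
      push_cast
      nlinarith [mul_le_mul_of_nonneg_right hκρ hw0]
    calc K ^ w * X ^ 8 ≤ (C ^ w * X ^ ((1 - ρ + κ) * w)) * X ^ 8 := mul_le_mul_of_nonneg_right e1 (by positivity)
      _ = C ^ w * (X ^ ((1 - ρ + κ) * w) * X ^ 8) := by ring
      _ ≤ (η ^ w * X ^ (4 : ℝ)) * X ^ ((w : ℝ) - 4) := by
          apply mul_le_mul h1 e2 (by positivity) (by positivity)
      _ = η ^ w * (X ^ (4 : ℝ) * X ^ ((w : ℝ) - 4)) := by ring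
      _ = (η * X) ^ w := by
          rw [← Real.rpow_add hX0, mul_pow, hXn]
          congr 2
          ring
  · have e1 : K ^ 3 ≤ (C * X ^ (1 - ρ + κ)) ^ 3 := pow_le_pow_left₀ hK hKC 3
    have e2 : Y ^ 3 ≤ (C0 * X ^ (ρ + κ)) ^ 3 := pow_le_pow_left₀ hY hYC 3
    rw [mul_pow, hp] at e1 e2
    have e3 : X ^ ((1 - ρ + κ) * (3 : ℕ)) * X * (X ^ (-γ) * X ^ ((ρ + κ) * (3 : ℕ))) ≤ X ^ (4 - γ / 2) := by
      have : X ^ ((1 - ρ + κ) * (3 : ℕ)) * X * (X ^ (-γ) * X ^ ((ρ + κ) * (3 : ℕ))) =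
          X ^ ((1 - ρ + κ) * (3 : ℕ)) * X ^ (1 : ℝ) * (X ^ (-γ) * X ^ ((ρ + κ) * (3 : ℕ))) := by
        rw [Real.rpow_one]
      rw [this, ← Real.rpow_add hX0, ← Real.rpow_add hX0, ← Real.rpow_add hX0]
      apply Real.rpow_le_rpow_of_exponent_le hX
      push_cast
      linarith
    calc K ^ 3 * (W * (4 * X)) * (X ^ (-γ) * Y ^ 3)
        ≤ (C ^ 3 * X ^ ((1 - ρ + κ) * (3 : ℕ))) * (W * (4 * X)) * (X ^ (-γ) * (C0 ^ 3 * X ^ ((ρ + κ) * (3 : ℕ)))) := by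
          gcongr
      _ = (4 * W * C ^ 3 * C0 ^ 3) * (X ^ ((1 - ρ + κ) * (3 : ℕ)) * X * (X ^ (-γ) * X ^ ((ρ + κ) * (3 : ℕ)))) := by ring
      _ ≤ (4 * W * C ^ 3 * C0 ^ 3) * X ^ (4 - γ / 2) := mul_le_mul_of_nonneg_left e3 (by positivity)
      _ ≤ (η ^ 4 * X ^ (γ / 2)) * X ^ (4 - γ / 2) := by
          apply mul_le_mul_of_nonneg_right h2 (by positivity)
      _ = η ^ 4 * (X ^ (γ / 2) * X ^ (4 - γ / 2)) := by ring
      _ = (η * X) ^ 4 := by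
          rw [← Real.rpow_add hX0, mul_pow, hXn]
          norm_num

theorem LFW_proof (h1 : LEW_stmt) (h2 : GYW_stmt) : LFW_stmt := by
  classical
  intro Γ hΓ
  obtain ⟨a0, C0, m0, ha0, ha0', H⟩ := h2 Γ hΓ
  refine ⟨a0, ha0, ?_⟩
  intro a ha haa C ρ hC hρ hρ1
  obtain ⟨w, hwdef⟩ : ∃ w : ℕ, w = ⌈16 / ρ⌉₊ := ⟨_, rfl⟩
  have hρw : 16 ≤ ρ * w := by
    have h3 := Nat.le_ceil (16 / ρ)
    rw [← hwdef, div_le_iff₀ hρ] at h3
    linarith
  have hw32 : (32 : ℝ) ≤ w := by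
    have : ρ * w ≤ 1 / 2 * w := mul_le_mul_of_nonneg_right hρ1 (Nat.cast_nonneg _)
    linarith
  have hw8 : 8 ≤ w := by
    have : (8 : ℝ) ≤ w := by linarith
    exact_mod_cast this
  have hwpos : (0 : ℝ) < w := by linarith
  refine ⟨1 / (32 * w), max (max m0 1) (2 ^ 10 * w ^ 2), by positivity, ?_⟩
  intro m hm
  have hl : 0 < Real.log 2 := Real.log_pos (by norm_num)
  have hl1 : Real.log 2 < 1 := by
    have := Real.log_two_lt_d9
    linarith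
  have hm2 : 2 ^ 10 * w ^ 2 ≤ ⌊(m : ℝ) / Real.log 2⌋₊ := by
    apply Nat.le_floor
    have h3 : ((2 ^ 10 * w ^ 2 : ℕ) : ℝ) ≤ m := by exact_mod_cast (le_max_right _ _).trans hm
    refine h3.trans ?_
    rw [le_div_iff₀ hl]
    nlinarith [(Nat.cast_nonneg m : (0 : ℝ) ≤ m)]
  obtain ⟨γ, N0, hγ, hγ1, HN⟩ := h1 w _ hw8 hm2
  refine ⟨min (γ / 12) (ρ / 4), by positivity, ?_⟩
  intro η hη
  obtain ⟨x0, hx0⟩ := LFW_x0 (C ^ w) (4 * (⌈C⌉₊ : ℝ) * C ^ 3 * (C0 : ℝ) ^ 3) η γ w hη hγ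
  refine ⟨max (max N0 (32 * w * m)) ⌈x0⌉₊, ?_⟩
  intro n hn A A' Am hA hA' hAm hbad
  obtain ⟨N, hnN, hN1, hN2⟩ := HF.LFE_N n
  have hn0 : N0 ≤ n := ((le_max_left _ _).trans (le_max_left _ _)).trans hn
  have hn4 : 32 * w * m ≤ n := ((le_max_right _ _).trans (le_max_left _ _)).trans hn
  have hnx : x0 ≤ n := (Nat.le_ceil x0).trans (by exact_mod_cast (le_max_right _ _).trans hn)
  intro g J b hJK hJW
  have hbad' : ∀ y ∈ A, 32 * w * ((Finset.range n).filter (fun i : ℕ => ¬ fb Γ a m Am (y * aM (i : ℝ)))).card ≤ n := by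
    intro y hy
    have h4 := hbad y hy
    have h5 : bad Γ Am a m n y = ((Finset.range n).filter (fun i : ℕ => ¬ fb Γ a m Am (y * aM (i : ℝ)))).card := by
      unfold bad
      rw [← Set.ncard_coe_finset]
      congr 1
      ext i
      simp only [Set.mem_setOf_eq, Finset.coe_filter, Finset.mem_range, fb]
    rw [h5, one_div, inv_mul_eq_div, le_div_iff₀ (by positivity)] at h4
    have h6 : (32 : ℝ) * w * (((Finset.range n).filter (fun i : ℕ => ¬ fb Γ a m Am (y * aM (i : ℝ)))).card : ℝ) ≤ n := by linarith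
    exact_mod_cast h6
  obtain ⟨Y, G, hY1, hY2, hY3, hY4, hY5⟩ := H w a n m N A Am g hw8 ha haa (((le_max_left _ _).trans (le_max_left _ _)).trans hm) hn4 hN1 hN2 hAm hbad'
  -- the finite set of the right end points of the cells
  have hae : (YL Γ A n (16 * a) g : Set ℝ) =ᵐ[volume] (YL Γ A n (16 * a) g ∩ cellU N Y : Set ℝ) := by
    have hfin : (((fun u : ℕ => ((u : ℝ) + 1) / 2 ^ N) '' (Y : Set ℕ))).Finite := Y.finite_toSet.image _
    have h7 : ∀ᵐ v ∂(volume : Measure ℝ), v ∉ ((fun u : ℕ => ((u : ℝ) + 1) / 2 ^ N) '' (Y : Set ℕ)) :=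
      hfin.countable.ae_notMem volume
    filter_upwards [h7] with v hv
    apply propext
    constructor
    · intro hvY
      refine ⟨hvY, ?_⟩
      obtain ⟨hv0, hv1, hvb⟩ := hvY
      obtain ⟨u, hu, hu1, hu2⟩ := hY3 v hv0 hv1.le hvb
      unfold cellU
      simp only [Set.mem_iUnion]
      refine ⟨u, hu, hu1, lt_of_le_of_ne hu2 ?_⟩
      intro h8
      exact hv ⟨u, hu, h8.symm⟩
    · intro hvY
      exact hvY.1
  rw [setIntegral_congr_set hae]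
  rcases J.eq_empty_or_nonempty with hJe | hJne
  · subst hJe
    simp
  · have hX1 : (1 : ℝ) ≤ 2 ^ N := one_le_pow₀ (by norm_num)
    have hx : x0 ≤ (2 : ℝ) ^ N := by
      refine hnx.trans (le_trans ?_ hN1)
      have := Real.add_one_le_exp (n : ℝ)
      linarith
    obtain ⟨hc1, hc2⟩ := hx0 _ hx
    have hκ0 : 0 < min (γ / 12) (ρ / 4) := by positivity
    have hAX : (A.card : ℝ) ≤ ((2 : ℝ) ^ N) ^ (ρ + min (γ / 12) (ρ / 4)) := by
      refine hA.trans ?_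
      have h9 : Real.exp ((ρ + min (γ / 12) (ρ / 4)) * n) = (Real.exp n) ^ (ρ + min (γ / 12) (ρ / 4)) := by
        rw [← Real.exp_mul]
        ring_nf
      rw [h9]
      exact Real.rpow_le_rpow (Real.exp_pos _).le hN1 (by positivity)
    have hAX' : (A'.card : ℝ) ≤ ((2 : ℝ) ^ N) ^ (1 - ρ + min (γ / 12) (ρ / 4)) := by
      refine hA'.trans ?_
      have h9 : Real.exp ((1 - ρ + min (γ / 12) (ρ / 4)) * n) = (Real.exp n) ^ (1 - ρ + min (γ / 12) (ρ / 4)) := by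
        rw [← Real.exp_mul]
        ring_nf
      rw [h9]
      exact Real.rpow_le_rpow (Real.exp_pos _).le hN1 (by linarith)
    obtain ⟨hn1, hn2⟩ := LFW_num ((2 : ℝ) ^ N) J.card Y.card A.card A'.card C C0 ⌈C⌉₊ η γ ρ (min (γ / 12) (ρ / 4)) w hX1 (Nat.cast_nonneg _) (Nat.cast_nonneg _) hC
      (Nat.cast_nonneg _) (Nat.cast_nonneg _) hη hρw (min_le_left _ _) (min_le_right _ _) hJK (by exact_mod_cast hY2) hAX hAX' hc1 hc2
    have hCW : ∀ j ∈ J, J.min' hJne ≤ j ∧ j < J.min' hJne + (⌈C⌉₊ : ℤ) * 2 ^ (N + 2) := by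
      intro j hj
      refine ⟨J.min'_le j hj, ?_⟩
      have h10 := hJW j hj (J.min' hJne) (J.min'_mem hJne)
      have h11 : ((j - J.min' hJne : ℤ) : ℝ) ≤ C * Real.exp n := (le_abs_self _).trans h10
      have h12 : C * Real.exp n < (⌈C⌉₊ : ℝ) * 2 ^ (N + 2) := by
        have h13 : C ≤ (⌈C⌉₊ : ℝ) := Nat.le_ceil C
        calc C * Real.exp n ≤ C * 2 ^ N := mul_le_mul_of_nonneg_left hN1 hC.le
          _ < C * 2 ^ (N + 2) := by
            apply mul_lt_mul_of_pos_left _ hC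
            apply pow_lt_pow_right₀ (by norm_num)
            omega
          _ ≤ (⌈C⌉₊ : ℝ) * 2 ^ (N + 2) := mul_le_mul_of_nonneg_right h13 (by positivity)
      have h14 : ((j - J.min' hJne : ℤ) : ℝ) < (((⌈C⌉₊ : ℤ) * 2 ^ (N + 2) : ℤ) : ℝ) := by
        push_cast
        push_cast at h11
        linarith
      have h15 : j - J.min' hJne < (⌈C⌉₊ : ℤ) * 2 ^ (N + 2) := by exact_mod_cast h14
      linarith
    have hpow : (2 : ℝ) ^ (8 * N) = ((2 : ℝ) ^ N) ^ 8 := by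
      rw [← pow_mul, mul_comm]
    have hmain := HN N (hn0.trans hnN) Y G hY1 hY4 hY5 ⌈C⌉₊ J (J.min' hJne) b (η * 2 ^ N) (YL Γ A n (16 * a) g ∩ cellU N Y) hCW (by positivity)
      (by rw [hpow]; exact hn1) ?_ Set.inter_subset_right
    · have h16 : η * 2 ^ N / 2 ^ N = η := by
        field_simp
      rw [h16] at hmain
      have h19 : (fun v : ℝ => ‖∑ j ∈ J, b j * Complex.exp (((Real.pi * j * v / 2 : ℝ) : ℂ) * Complex.I)‖ ^ 2) = fun v : ℝ => ‖esum J b v‖ ^ 2 := by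
        funext v
        simp only [esum]
        congr 2
        refine Finset.sum_congr rfl fun j _ => ?_
        rw [mul_comm Complex.I]
      rw [h19]
      exact hmain
    · have h17 : (2 : ℝ) ^ (-(γ * N)) = ((2 : ℝ) ^ N) ^ (-γ) := by
        rw [← Real.rpow_natCast, ← Real.rpow_mul (by norm_num)]
        congr 1
        ring
      have h18 : ((⌈C⌉₊ : ℝ) * 2 ^ (N + 2)) = (⌈C⌉₊ : ℝ) * (4 * 2 ^ N) := by ring
      rw [h17, h18]
      exact hn2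

end Pool.Agent.CR
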